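import Mathlib
import Pool.Agent.Y55.GCR.Tail
import Pool.Agent.Results.MP_e7655a_nt.HalfDescent

/-!
# The gcd recursion with `n ^ p - 1`: power saving, at every time of a descent

Along the descent between two consecutive zeros `n < n'` the remaining time `n' - s` is at every
time `s` at most half of the current value `a(s)`, up to a power saving and to the least prime
factor of `(n'+1)^p - 1`.
-/

set_option autoImplicit false

namespace Pool.Agent.Results.MP_e7655a_nt.EveryTimePowerSaving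

open Finset Pool.Agent.H399R2 Pool.Agent.TH999.GCR Pool.Agent.Y55.GCR

theorem rpow_mono_exp {y α β : ℝ} (hy : y = 0 ∨ 1 ≤ y) (h : α ≤ β) (h0 : 0 < α) :
    y ^ α ≤ y ^ β := by
  rcases hy with rfl | hy
  · rw [Real.zero_rpow h0.ne', Real.zero_rpow (by linarith)]
  · exact Real.rpow_le_rpow_of_exponent_le hy h

/-- For every prime `p` there are `δ > 0`, `C` and `n₀` such that for the recursion `a` of the
problem and all consecutive zeros `n < n'` of it, with `X = (n+1)^p - 1` the starting value of the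
descent and `q = ((n'+1)^p - 1)/n'`: (1) at every time `s` of the descent (`n < s ≤ n'`) every
prime factor `r` of `n'` or of `q` satisfies `2 (n' - s) ≤ a(s) + r + C a(s)^(1-δ)`; (2) `n'` is
prime or `n' - n ≤ X/2 + C X^(1-δ)`; (3) if `n ≥ n₀` and `n' - n ≥ X/2 + X^(1-δ)`, then `n'` is
prime and `q` has at most `p - 1` prime factors counted with multiplicity; for `p = 2` both `n'` and
`q = n' + 2` are prime. -/
theorem result :
    ∀ p : ℕ, p.Prime → ∃ δ C : ℝ, ∃ n₀ : ℕ, 0 < δ ∧ 0 < C ∧ ∀ a : ℕ → ℤ, a 1 = 1 →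
      (∀ n : ℕ, 2 ≤ n →
        a n = |a (n - 1) - ((Int.gcd (a (n - 1)) ((n : ℤ) ^ p - 1) : ℕ) : ℤ)|) →
      ∀ n n' : ℕ, 1 ≤ n → n < n' → a n = 0 → a n' = 0 → (∀ k : ℕ, n < k → k < n' → a k ≠ 0) →
        (∀ s : ℕ, n < s → s ≤ n' → ∀ r : ℕ, r.Prime → (r ∣ n' ∨ r ∣ ((n' + 1) ^ p - 1) / n') →
          2 * ((n' : ℝ) - s) ≤ (a s : ℝ) + r + C * (a s : ℝ) ^ (1 - δ)) ∧
        (Nat.Prime n' ∨ (n' : ℝ) - n ≤ 1 / 2 * (((n + 1) ^ p - 1 : ℕ) : ℝ) +
            C * (((n + 1) ^ p - 1 : ℕ) : ℝ) ^ (1 - δ)) ∧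
        (n₀ ≤ n → 1 / 2 * (((n + 1) ^ p - 1 : ℕ) : ℝ) + (((n + 1) ^ p - 1 : ℕ) : ℝ) ^ (1 - δ) ≤
            (n' : ℝ) - n →
          Nat.Prime n' ∧ (((n' + 1) ^ p - 1) / n').primeFactorsList.length ≤ p - 1 ∧
          (p = 2 → Nat.Prime (n' + 2))) := by
  intro p hp
  obtain ⟨δ, C₀, hδ, hδ4, hC₀, hmain⟩ := tail 1 p (by norm_num)
  have hp2 := hp.two_le
  have hpr : (2 : ℝ) ≤ p := by exact_mod_cast hp2
  set η : ℝ := min (δ / 2) (1 / (4 * p)) with hη
  have hη0 : 0 < η := lt_min (by positivity) (by positivity)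
  have hη1 : 2 * η ≤ δ := by
    have := min_le_left (δ / 2) (1 / (4 * (p : ℝ)))
    linarith
  have hη2 : p * η ≤ 1 / 4 := by
    have h1 := min_le_right (δ / 2) (1 / (4 * (p : ℝ)))
    calc (p : ℝ) * η ≤ p * (1 / (4 * p)) := mul_le_mul_of_nonneg_left h1 (by positivity)
      _ = 1 / 4 := by field_simp
  have hη3 : η ≤ 1 / 8 := by linarith
  obtain ⟨N₁, hN₁⟩ := ((tendsto_rpow_atTop hη0).eventually_ge_atTop
    (C₀ + 2)).exists_forall_of_atTop
  obtain ⟨N₂, hN₂⟩ := ((tendsto_rpow_atTop (show (0 : ℝ) < 1 / 4 by norm_num)).eventually_gt_atTop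
    (3 : ℝ)).exists_forall_of_atTop
  obtain ⟨N₃, hN₃⟩ := ((tendsto_rpow_atTop (show (0 : ℝ) < 1 / 2 by norm_num)).eventually_gt_atTop
    ((2 : ℝ) ^ (p + 1))).exists_forall_of_atTop
  obtain ⟨N, hN⟩ := exists_nat_gt (max N₁ (max N₂ N₃))
  refine ⟨η, C₀ + 4, N, hη0, by positivity, ?_⟩
  intro a ha1 ha n n' hn hnn' han han' hne
  have hnn : ∀ k, 1 ≤ k → 0 ≤ a k := by
    intro k hk
    rcases Nat.lt_or_ge k 2 with h | h
    · have : k = 1 := by omega
      subst this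
      rw [ha1]
      norm_num
    · rw [ha k h]
      exact abs_nonneg _
  have hcast : ∀ k, 1 ≤ k → (((a k).natAbs : ℕ) : ℝ) = (a k : ℝ) := by
    intro k hk
    rw [Nat.cast_natAbs, abs_of_nonneg (hnn k hk)]
  have hseg : Seg (fun k => (a k).natAbs) (fun k : ℕ => (k : ℤ) ^ p - 1) (n + 1) n' :=
    seg_of_zeros (V := fun k : ℕ => (k : ℤ) ^ p - 1) (by rw [ha1]; norm_num) ha (by omega)
      (by omega) (fun k h1 h2 => hne k (by omega) h2)
  have hpow1 : ∀ k : ℕ, 1 ≤ k → 1 ≤ k ^ p := fun k hk => Nat.one_le_pow _ _ hk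
  have hVnat : ∀ k : ℕ, 1 ≤ k → ((k : ℕ) : ℤ) ^ p - 1 = ((k ^ p - 1 : ℕ) : ℤ) := by
    intro k hk
    rw [Nat.cast_sub (hpow1 k hk)]; push_cast; ring
  have hstart : (a (n + 1)).natAbs = (n + 1) ^ p - 1 := by
    rw [ha (n + 1) (by omega), Nat.add_sub_cancel, han]
    simp only [Int.gcd_zero_left, zero_sub, abs_neg]
    rw [Nat.abs_cast, Int.natAbs_natCast]
    rw [hVnat (n + 1) (by omega), Int.natAbs_natCast]
  have hxf : (a n').natAbs = 0 := by rw [han']; rfl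
  have hn'1 : 1 ≤ n' := by omega
  have hdvdn : n' ∣ (n' + 1) ^ p - 1 := by
    have := Nat.sub_dvd_pow_sub_pow (n' + 1) 1 p
    simpa using this
  -- the main inequality at time `s`
  have hA : ∀ s : ℕ, n < s → s ≤ n' → ∀ r : ℕ, r.Prime →
      (r ∣ n' ∨ r ∣ ((n' + 1) ^ p - 1) / n') →
      2 * ((n' : ℝ) - s) ≤ (a s : ℝ) + r + C₀ * (a s : ℝ) ^ (1 - δ) := by
    intro s hs1 hs2 r hr hdvd0
    have hdvd : r ∣ (n' + 1) ^ p - 1 := by
      rcases hdvd0 with h | h
      · exact h.trans hdvdn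
      · exact h.trans (Nat.div_dvd_of_dvd hdvdn)
    have hseg' : Seg (fun k => (a k).natAbs) (fun k : ℕ => (k : ℤ) ^ p - 1) ((s - 1) + 1) n' := by
      have e1 : s - 1 + 1 = s := by omega
      rw [e1]
      exact seg_sub hseg (by omega) hs2
    have hgood := HalfDescent.good p hp (s - 1) n' (fun k => (a k).natAbs) hseg'
    obtain ⟨l, hsl, hle, htr, hrun, hl⟩ := hmain _ _ _ _ _ _ hgood hxf
    have hdet := HalfDescent.detect p n' l (fun k => (a k).natAbs) hle htr hrun r hr (by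
      rw [hVnat _ (by omega)]
      exact Int.natCast_dvd_natCast.mpr hdvd)
    have e1 : s - 1 + 1 = s := by omega
    rw [e1] at hl
    simp only [hcast s (by omega)] at hl
    have h2 : (n' : ℝ) - l ≤ r := by
      have h3 : n' ≤ l + r := by omega
      have h4 : (n' : ℝ) ≤ ((l + r : ℕ) : ℝ) := by exact_mod_cast h3
      push_cast at h4
      linarith
    push_cast at hl
    linarith
  have hdich : ∀ s : ℕ, n < s → (a s : ℝ) = 0 ∨ 1 ≤ (a s : ℝ) := by
    intro s hs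
    have h1 := hnn s (by omega)
    rcases h1.eq_or_lt with h2 | h2
    · left
      rw [← h2]
      simp
    · right
      have : (1 : ℤ) ≤ a s := h2
      exact_mod_cast this
  have hA' : ∀ s : ℕ, n < s → s ≤ n' → ∀ r : ℕ, r.Prime →
      (r ∣ n' ∨ r ∣ ((n' + 1) ^ p - 1) / n') →
      2 * ((n' : ℝ) - s) ≤ (a s : ℝ) + r + C₀ * (a s : ℝ) ^ (1 - 2 * η) := by
    intro s hs1 hs2 r hr hd
    have h1 := hA s hs1 hs2 r hr hd
    have h2 : (a s : ℝ) ^ (1 - δ) ≤ (a s : ℝ) ^ (1 - 2 * η) :=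
      rpow_mono_exp (hdich s hs1) (by linarith) (by linarith)
    have h3 := mul_le_mul_of_nonneg_left h2 hC₀.le
    linarith
  have hXlow : n + 2 ≤ (n + 1) ^ p - 1 := by
    have h1 : (n + 1) ^ 2 ≤ (n + 1) ^ p := Nat.pow_le_pow_right (by omega) hp.two_le
    have h2 : n + 3 ≤ (n + 1) ^ 2 := by nlinarith
    omega
  have hstR : (a (n + 1) : ℝ) = (((n + 1) ^ p - 1 : ℕ) : ℝ) := by
    rw [← hcast (n + 1) (by omega), hstart]
  have hdec := decr hseg n' (by omega) le_rfl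
  simp only [hxf, hstart] at hdec
  set X : ℕ := (n + 1) ^ p - 1 with hX
  have hX3 : (3 : ℝ) ≤ X := by
    have : 3 ≤ X := by omega
    exact_mod_cast this
  have hlen : n' ≤ X + (n + 1) := by omega
  have hX1 : (1 : ℝ) ≤ X := by linarith
  have hX0 : (0 : ℝ) < X := by linarith
  have hZ1 : (1 : ℝ) ≤ (X : ℝ) ^ (1 - η) := Real.one_le_rpow hX1 (by linarith)
  have hZ2 : (X : ℝ) ^ (1 - 2 * η) ≤ (X : ℝ) ^ (1 - η) :=
    Real.rpow_le_rpow_of_exponent_le hX1 (by linarith)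
  have hsqrt : ((Nat.minFac n' : ℕ) : ℝ) ≤ 3 * √X ∨ Nat.Prime n' := by
    by_cases h : Nat.Prime n'
    · exact Or.inr h
    left
    have h2 : Nat.minFac n' ≤ Nat.sqrt n' := by
      rw [Nat.le_sqrt']
      exact Nat.minFac_sq_le_self (by omega) h
    have h3 : ((Nat.minFac n' : ℕ) : ℝ) ≤ ((Nat.sqrt n' : ℕ) : ℝ) := by exact_mod_cast h2
    have h5 : ((Nat.sqrt n' : ℕ) : ℝ) ≤ √((n' : ℕ) : ℝ) := Real.nat_sqrt_le_real_sqrt
    have h7 : n' ≤ 9 * X := by omega
    have h8 : ((n' : ℕ) : ℝ) ≤ ((9 * X : ℕ) : ℝ) := by exact_mod_cast h7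
    push_cast at h8
    calc ((Nat.minFac n' : ℕ) : ℝ) ≤ √((n' : ℕ) : ℝ) := h3.trans h5
      _ ≤ √(9 * X) := Real.sqrt_le_sqrt h8
      _ = 3 * √X := by
          rw [Real.sqrt_mul (by norm_num), show (9 : ℝ) = 3 ^ 2 by norm_num,
            Real.sqrt_sq (by norm_num)]
  have hsX : √(X : ℝ) ≤ (X : ℝ) ^ (1 - η) := by
    rw [Real.sqrt_eq_rpow]
    exact Real.rpow_le_rpow_of_exponent_le hX1 (by linarith)
  refine ⟨?_, ?_, ?_⟩
  · intro s hs1 hs2 r hr hd
    have h1 := hA' s hs1 hs2 r hr hd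
    have h2 : (a s : ℝ) ^ (1 - 2 * η) ≤ (a s : ℝ) ^ (1 - η) :=
      rpow_mono_exp (hdich s hs1) (by linarith) (by linarith)
    have h3 : 0 ≤ (a s : ℝ) ^ (1 - η) := by
      apply Real.rpow_nonneg
      exact_mod_cast hnn s (by omega)
    have h4 := mul_le_mul_of_nonneg_left h2 hC₀.le
    linarith
  · rcases hsqrt with h | h
    · right
      by_cases hn1 : n' = 1
      · omega
      have h1 := hA' (n + 1) (by omega) (by omega) (Nat.minFac n') (Nat.minFac_prime hn1)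
        (Or.inl (Nat.minFac_dvd _))
      rw [hstR] at h1
      push_cast at h1
      have h4 := mul_le_mul_of_nonneg_left hZ2 hC₀.le
      nlinarith
    · exact Or.inl h
  intro hNn hlong
  have hXN : ((N : ℕ) : ℝ) ≤ X := by
    have : N ≤ X := by omega
    exact_mod_cast this
  have hXN₁ : N₁ ≤ (X : ℝ) := ((le_max_left _ _).trans hN.le).trans hXN
  have hXN₂ : N₂ ≤ (X : ℝ) :=
    (((le_max_left _ _).trans (le_max_right _ _)).trans hN.le).trans hXN
  have hXN₃ : N₃ ≤ (X : ℝ) :=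
    (((le_max_right _ _).trans (le_max_right _ _)).trans hN.le).trans hXN
  have hg1 := hN₁ X hXN₁
  have hg2 := hN₂ X hXN₂
  have hg3 := hN₃ X hXN₃
  -- all prime factors are at least `X ^ (1 - η)`
  have hbigr : ∀ r : ℕ, r.Prime → (r ∣ n' ∨ r ∣ ((n' + 1) ^ p - 1) / n') →
      (X : ℝ) ^ (1 - η) ≤ r := by
    intro r hr hd
    have h1 := hA' (n + 1) (by omega) (by omega) r hr hd
    rw [hstR] at h1
    push_cast at h1
    have h2 : (C₀ + 2) * (X : ℝ) ^ (1 - 2 * η) ≤ (X : ℝ) ^ (1 - η) := by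
      calc (C₀ + 2) * (X : ℝ) ^ (1 - 2 * η) ≤ (X : ℝ) ^ η * (X : ℝ) ^ (1 - 2 * η) :=
            mul_le_mul_of_nonneg_right hg1 (by positivity)
        _ = (X : ℝ) ^ (1 - η) := by
            rw [← Real.rpow_add hX0]
            congr 1
            ring
    have h3 : (1 : ℝ) ≤ (X : ℝ) ^ (1 - 2 * η) := Real.one_le_rpow hX1 (by linarith)
    nlinarith
  have hprime : Nat.Prime n' := by
    rcases hsqrt with h | h
    · exfalso
      by_cases hn1 : n' = 1
      · omega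
      have h1 := hbigr (Nat.minFac n') (Nat.minFac_prime hn1) (Or.inl (Nat.minFac_dvd _))
      have h2 : √(X : ℝ) * (X : ℝ) ^ ((1 : ℝ) / 4) ≤ (X : ℝ) ^ (1 - η) := by
        rw [Real.sqrt_eq_rpow, ← Real.rpow_add hX0]
        exact Real.rpow_le_rpow_of_exponent_le hX1 (by linarith)
      have h3 : 0 < √(X : ℝ) := Real.sqrt_pos.mpr hX0
      nlinarith
    · exact h
  have hn'0 : 0 < n' := by omega
  set q := ((n' + 1) ^ p - 1) / n' with hq
  have hqn : q * n' = (n' + 1) ^ p - 1 := Nat.div_mul_cancel hdvdn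
  have hbig : n' + 2 ≤ q := by
    have h1 : (n' + 1) ^ 2 ≤ (n' + 1) ^ p := Nat.pow_le_pow_right (by omega) hp.two_le
    have h2 : (n' + 2) * n' ≤ q * n' := by
      rw [hqn]
      have : (n' + 2) * n' + 1 = (n' + 1) ^ 2 := by ring
      omega
    exact Nat.le_of_mul_le_mul_right h2 hn'0
  have hlenq : q.primeFactorsList.length ≤ p - 1 := by
    by_contra hcon
    push Not at hcon
    have hcon' : p ≤ q.primeFactorsList.length := by omega
    have hq0 : q ≠ 0 := by omega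
    have hpow : Nat.minFac q ^ q.primeFactorsList.length ≤ q := by
      conv_rhs => rw [← Nat.prod_primeFactorsList hq0]
      apply List.pow_card_le_prod
      intro x hx
      exact Nat.minFac_le_of_dvd (Nat.prime_of_mem_primeFactorsList hx).two_le
        (Nat.dvd_of_mem_primeFactorsList hx)
    have hpow2 : Nat.minFac q ^ p ≤ q :=
      (Nat.pow_le_pow_right (Nat.minFac_pos q) hcon').trans hpow
    have hmin : (X : ℝ) ^ (1 - η) ≤ (Nat.minFac q : ℝ) :=
      hbigr _ (Nat.minFac_prime (by omega)) (Or.inr (Nat.minFac_dvd q))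
    have h4 : ((X : ℝ) ^ (1 - η)) ^ p ≤ (q : ℝ) := by
      calc ((X : ℝ) ^ (1 - η)) ^ p ≤ (Nat.minFac q : ℝ) ^ p :=
            pow_le_pow_left₀ (by positivity) hmin p
        _ ≤ q := by exact_mod_cast hpow2
    have h5 : (q : ℝ) * n' ≤ (2 * X) ^ p := by
      have h6 : q * n' ≤ (2 * X) ^ p := by
        rw [hqn]
        exact (Nat.sub_le _ _).trans (Nat.pow_le_pow_left (by omega) p)
      exact_mod_cast h6
    have h7 : 1 / 2 * (X : ℝ) ≤ n' := by
      have : (0 : ℝ) ≤ n := Nat.cast_nonneg _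
      nlinarith
    have h8 : ((X : ℝ) ^ (1 - η)) ^ p * (1 / 2 * X) ≤ (2 * X) ^ p :=
      (mul_le_mul h4 h7 (by positivity) (Nat.cast_nonneg _)).trans h5
    have h9 : (X : ℝ) ^ p * (X : ℝ) ^ ((1 : ℝ) / 2) ≤ ((X : ℝ) ^ (1 - η)) ^ p * X := by
      have e1 : ((X : ℝ) ^ (1 - η)) ^ p * X = (X : ℝ) ^ ((1 - η) * p + 1) := by
        rw [← Real.rpow_natCast ((X : ℝ) ^ (1 - η)) p, ← Real.rpow_mul hX0.le,
          Real.rpow_add hX0, Real.rpow_one]
      have e2 : (X : ℝ) ^ p * (X : ℝ) ^ ((1 : ℝ) / 2) = (X : ℝ) ^ ((p : ℝ) + 1 / 2) := by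
        rw [Real.rpow_add hX0, Real.rpow_natCast]
      rw [e1, e2]
      apply Real.rpow_le_rpow_of_exponent_le hX1
      nlinarith
    have h10 : (X : ℝ) ^ p * (X : ℝ) ^ ((1 : ℝ) / 2) ≤ (X : ℝ) ^ p * 2 ^ (p + 1) := by
      rw [mul_pow] at h8
      have e3 : (X : ℝ) ^ p * 2 ^ (p + 1) = 2 * (2 ^ p * (X : ℝ) ^ p) := by ring
      rw [e3]
      linarith
    have h11 := le_of_mul_le_mul_left h10 (by positivity)
    linarith
  refine ⟨hprime, hlenq, ?_⟩
  intro hp2'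
  have hq2 : q = n' + 2 := by
    have h1 : q * n' = (n' + 2) * n' := by
      rw [hqn, hp2']
      have : (n' + 1) ^ 2 = (n' + 2) * n' + 1 := by ring
      omega
    exact Nat.eq_of_mul_eq_mul_right hn'0 h1
  rw [← hq2]
  rw [hp2'] at hlenq
  have h1 : q.primeFactorsList.length = 1 := by
    have h2 : q.primeFactorsList.length ≠ 0 := by
      intro h3
      rw [List.length_eq_zero_iff, Nat.primeFactorsList_eq_nil] at h3
      omega
    omega
  obtain ⟨x, hx⟩ := List.length_eq_one_iff.mp h1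
  have h2 := Nat.prod_primeFactorsList (n := q) (by omega)
  rw [hx, List.prod_singleton] at h2
  rw [← h2]
  exact Nat.prime_of_mem_primeFactorsList (by rw [hx]; simp)

end Pool.Agent.Results.MP_e7655a_nt.EveryTimePowerSaving
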